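import Mathlib
import Pool.Agent.Helper87_Segal.Ring

/-!
Q1 of MP_d84e7d_an, negated form: there are a locally compact group `G` and a proper Segal algebra
on `G` that is approximately amenable.
-/

open MeasureTheory Topology Filter

namespace Pool.Agent.Results.MP_d84e7d_an.ProperApproxAmenable

universe u v

/-- `A` is a Segal algebra on the group `G` with left Haar measure `μ`. The normed ring `A` is
identified, by `toFun` and up to equality almost everywhere, with a dense linear subspace of
`L¹(G)`; its product is convolution, its norm dominates the `L¹` norm, and it is closed under the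
left translations `(L_g f)(x) = f(g⁻¹ x)`, which are isometric and depend continuously on `g`. -/
structure SegalAlgebra {G : Type u} [Group G] [TopologicalSpace G] [MeasurableSpace G]
    (μ : Measure G) (A : Type v) [NonUnitalNormedRing A] [NormedSpace ℂ A] where
  toFun : A → G → ℂ
  integrable : ∀ f, Integrable (toFun f) μ
  add : ∀ f g, ∀ᵐ x ∂μ, toFun (f + g) x = toFun f x + toFun g x
  smul : ∀ (c : ℂ) (f : A), ∀ᵐ x ∂μ, toFun (c • f) x = c * toFun f x
  mul : ∀ f g, ∀ᵐ x ∂μ, toFun (f * g) x = ∫ y, toFun f y * toFun g (y⁻¹ * x) ∂μ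
  injective : ∀ f, (∀ᵐ x ∂μ, toFun f x = 0) → f = 0
  norm_le : ∀ f, ∫ x, ‖toFun f x‖ ∂μ ≤ ‖f‖
  dense : ∀ h : G → ℂ, Integrable h μ → ∀ ε : ℝ, 0 < ε → ∃ f, ∫ x, ‖h x - toFun f x‖ ∂μ < ε
  translate : ∀ (g : G) (f : A), ∃ f' : A, (∀ᵐ x ∂μ, toFun f' x = toFun f (g⁻¹ * x)) ∧ ‖f'‖ = ‖f‖
  continuous : ∀ (f : A) (T : G → A), (∀ g, ∀ᵐ x ∂μ, toFun (T g) x = toFun f (g⁻¹ * x)) →
    Continuous T

/-- The Segal algebra is proper (nontrivial): it is not all of `L¹(G)`. -/
def SegalAlgebra.IsProper {G : Type u} [Group G] [TopologicalSpace G] [MeasurableSpace G]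
    {μ : Measure G} {A : Type v} [NonUnitalNormedRing A] [NormedSpace ℂ A]
    (S : SegalAlgebra μ A) : Prop :=
  ∃ h : G → ℂ, Integrable h μ ∧ ∀ f : A, ¬ ∀ᵐ x ∂μ, S.toFun f x = h x

/-- A Banach `A`-bimodule structure on `X`: `left a x` is `a · x` and `right a x` is `x · a`. -/
structure Bimodule (A : Type u) [NonUnitalNormedRing A] [NormedSpace ℂ A]
    (X : Type v) [NormedAddCommGroup X] [NormedSpace ℂ X] where
  left : A →L[ℂ] X →L[ℂ] X
  right : A →L[ℂ] X →L[ℂ] X
  left_mul : ∀ a b x, left (a * b) x = left a (left b x)
  right_mul : ∀ a b x, right (a * b) x = right b (right a x)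
  left_right : ∀ a b x, left a (right b x) = right b (left a x)

/-- A bounded derivation `D : A → X*`, where `X` is the Banach bimodule `M` and its dual `X*` has
the actions `(a · φ)(x) = φ(x · a)` and `(φ · a)(x) = φ(a · x)`: `D(a b) = a · D(b) + D(a) · b`. -/
structure DualDerivation {A : Type u} [NonUnitalNormedRing A] [NormedSpace ℂ A]
    {X : Type v} [NormedAddCommGroup X] [NormedSpace ℂ X] (M : Bimodule A X) where
  D : A →L[ℂ] X →L[ℂ] ℂ
  leibniz : ∀ a b x, D (a * b) x = D b (M.right a x) + D a (M.left b x)

/-- A net `ξ` in `X*` (indexed by a nonempty directed preorder `I`) such that the inner derivations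
`a ↦ a · ξ i - ξ i · a` converge to `d.D`: in the norm of `X*`, for every `a`. -/
structure InnerNet {A : Type u} [NonUnitalNormedRing A] [NormedSpace ℂ A]
    {X : Type v} [NormedAddCommGroup X] [NormedSpace ℂ X] {M : Bimodule A X}
    (d : DualDerivation M) where
  I : Type u
  [preorder : Preorder I]
  [directed : IsDirectedOrder I]
  [nonempty : Nonempty I]
  ξ : I → X →L[ℂ] ℂ
  tendsto : ∀ a : A,
    Tendsto (fun i => (ξ i).comp (M.right a) - (ξ i).comp (M.left a)) atTop (𝓝 (d.D a))

/-- Approximate amenability of the Banach algebra `A`: for every Banach bimodule `X` and every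
bounded derivation `D : A → X*` there is a net `ξ` in `X*` with `a · ξ i - ξ i · a → D a` in norm
for every `a`. -/
def IsApproximatelyAmenable (A : Type u) [NonUnitalNormedRing A] [NormedSpace ℂ A] : Prop :=
  ∀ (X : Type v) [NormedAddCommGroup X] [NormedSpace ℂ X] [CompleteSpace X] (M : Bimodule A X)
    (d : DualDerivation M), Nonempty (InnerNet d)

open Pool.Agent.Helper87_Segal (GG SA isProper SA_isApproximatelyAmenable leftTranslate_coeFn)

section Transfer

variable {G : Type} [Group G] [TopologicalSpace G] [IsTopologicalGroup G] [LocallyCompactSpace G]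
  [T2Space G] [SecondCountableTopology G] [MeasurableSpace G] [BorelSpace G]
  {μ : Measure G} [μ.IsHaarMeasure] (S : Pool.Agent.Helper87_Segal.SegalAlgebra μ)

/-- The Segal algebra in the form used in the statement. -/
noncomputable def segal : SegalAlgebra μ S.Alg :=
  { toFun := fun f x => S.toL1 f x
    integrable := fun f => L1.integrable_coeFn (S.toL1 f)
    add := fun f g => by
      have h : S.toL1 (f + g) = S.toL1 f + S.toL1 g := map_add S.toL1 f g
      rw [h]
      exact Lp.coeFn_add _ _
    smul := fun c f => by
      have h : S.toL1 (c • f) = c • S.toL1 f := map_smul S.toL1 c f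
      rw [h]
      exact Lp.coeFn_smul c (S.toL1 f)
    mul := fun f g => S.mul_spec f g
    injective := fun f hf => S.toL1_injective (by
      have h : S.toL1 f = 0 := by
        apply Lp.ext
        exact EventuallyEq.trans hf (Lp.coeFn_zero ℂ 1 μ).symm
      exact h.trans (map_zero S.toL1).symm)
    norm_le := fun f => by
      rw [← L1.norm_eq_integral_norm]
      exact S.norm_toL1_le f
    dense := fun h hh ε hε => by
      obtain ⟨f, hf1, hf2⟩ := Metric.dense_iff.mp S.dense' (hh.toL1 h) ε hε
      refine ⟨(⟨f, hf2⟩ : S.carrier), ?_⟩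
      rw [Metric.mem_ball, dist_comm, dist_eq_norm, L1.norm_eq_integral_norm] at hf1
      refine lt_of_eq_of_lt ?_ hf1
      refine integral_congr_ae ?_
      filter_upwards [hh.coeFn_toL1, Lp.coeFn_sub (hh.toL1 h) f] with x hx hx2
      rw [hx2, Pi.sub_apply, hx]
      rfl
    translate := fun g f => ⟨S.translate g f, leftTranslate_coeFn μ g (S.toL1 f),
      S.norm_translate g f⟩
    continuous := fun f T hT => by
      have h : T = fun g => S.rep.T g f := by
        funext g
        apply S.toL1_injective
        apply Lp.ext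
        exact EventuallyEq.trans (hT g) (leftTranslate_coeFn μ g (S.toL1 f)).symm
      rw [h]
      exact S.rep.T_cont f }

theorem segal_isProper (hS : S.IsProper) : (segal S).IsProper := by
  have h1 : ∃ f : Lp ℂ 1 μ, f ∉ S.carrier := by
    by_contra hcon
    push Not at hcon
    exact hS (eq_top_iff.mpr fun f _ => hcon f)
  obtain ⟨f, hf⟩ := h1
  refine ⟨fun x => f x, L1.integrable_coeFn f, fun g hg => hf ?_⟩
  have h2 : S.toL1 g = f := Lp.ext hg
  rw [← h2]
  exact (show S.carrier from g).2

/-- Approximate amenability in the form used in the statement. -/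
theorem amenable (hS : Pool.Agent.Helper87_Segal.SegalAlgebra.IsApproximatelyAmenable.{0, v} S) :
    IsApproximatelyAmenable.{0, v} S.Alg := by
  intro X _ _ _ M d
  let M' : S.Bimodule X :=
    { left := M.left
      right := M.right
      left_mul := M.left_mul
      right_mul := M.right_mul
      left_right := M.left_right }
  obtain ⟨I, i1, i2, i3, ξ, hξ⟩ := hS X M' d.D (fun a b => by
    ext x
    exact d.leibniz a b x)
  exact ⟨{ I := I, ξ := ξ, tendsto := hξ }⟩

end Transfer

/-- There are a (second countable) locally compact Hausdorff group `G` with a Haar measure `μ` and a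
Segal algebra `A` on `G` (a Banach algebra) such that `A ≠ L¹(G)` and `A` is approximately
amenable. -/
theorem result : ∃ (G : Type) (_ : Group G) (_ : TopologicalSpace G) (_ : IsTopologicalGroup G)
    (_ : LocallyCompactSpace G) (_ : T2Space G) (_ : SecondCountableTopology G)
    (_ : MeasurableSpace G) (_ : BorelSpace G) (μ : Measure G) (_ : μ.IsHaarMeasure)
    (A : Type) (_ : NonUnitalNormedRing A) (_ : NormedSpace ℂ A) (_ : CompleteSpace A)
    (S : SegalAlgebra μ A), S.IsProper ∧ IsApproximatelyAmenable.{0, v} A := by
  exact ⟨GG, inferInstance, inferInstance, inferInstance, inferInstance, inferInstance,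
    inferInstance, inferInstance, inferInstance, Measure.haar, inferInstance,
    (SA Measure.haar).Alg, inferInstance, inferInstance, inferInstance, segal (SA Measure.haar),
    segal_isProper _ (isProper Measure.haar),
    amenable _ (SA_isApproximatelyAmenable Measure.haar)⟩

end Pool.Agent.Results.MP_d84e7d_an.ProperApproxAmenable
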